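import Pool.Agent.Helper58.QD.StF

/-!
# Project QD, module MOA: mollification of a primitive
-/

set_option autoImplicit false

open Set Filter Topology MeasureTheory
open Helper62.LH Helper62.DSH Helper58.QD
open scoped ContDiff ENNReal

noncomputable section

namespace Pool.Agent.Helper15.QD

variable {n : ℕ}

/-- mollification of a function with values in a normed space -/
def mv {V : Type} [NormedAddCommGroup V] [NormedSpace ℝ V] (ρ : E n → ℝ) (ε : ℝ)
    (f : E n → V) (x : E n) : V := ∫ y, ρ y • f (x - ε • y)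

lemma molC {ρ : E n → ℝ} (hρ : Mol ρ) : HasCompactSupport ρ :=
  HasCompactSupport.intro (isCompact_closedBall (0 : E n) 1) fun x hx => hρ.supp x (by
    simpa using hx)

lemma mv_int {V : Type} [NormedAddCommGroup V] [NormedSpace ℝ V]
    {ρ : E n → ℝ} (hρ : Mol ρ) (ε : ℝ) {f : E n → V} (hf : Continuous f) (x : E n) :
    Integrable (fun y => ρ y • f (x - ε • y)) := by
  have h1 : Continuous (fun y => ρ y • f (x - ε • y)) :=
    hρ.smooth.continuous.smul (hf.comp (continuous_const.sub (continuous_const_smul ε)))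
  exact h1.integrable_of_hasCompactSupport (molC hρ).smul_right

lemma mv_hasFD {V : Type} [NormedAddCommGroup V] [NormedSpace ℝ V] [CompleteSpace V]
    {ρ : E n → ℝ} (hρ : Mol ρ) (ε : ℝ) {f : E n → V} (hf : ContDiff ℝ 1 f) (x : E n) :
    HasFDerivAt (mv ρ ε f) (mv ρ ε (fderiv ℝ f) x) x := by
  have hf' : Continuous (fderiv ℝ f) := hf.continuous_fderiv one_ne_zero
  obtain ⟨C, hC⟩ := (isCompact_closedBall (0 : E n) (‖x‖ + 1 + |ε|)).exists_bound_of_continuousOn
    hf'.continuousOn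
  have hi : Integrable (fun y => |ρ y| * C) :=
    ((hρ.smooth.continuous.integrable_of_hasCompactSupport (molC hρ)).norm).mul_const C
  refine hasFDerivAt_integral_of_dominated_of_fderiv_le (s := Metric.ball x 1)
    (F' := fun z y => ρ y • fderiv ℝ f (z - ε • y)) (bound := fun y => |ρ y| * C)
    (Metric.ball_mem_nhds x one_pos)
    (Eventually.of_forall fun z => (mv_int hρ ε hf.continuous z).aestronglyMeasurable)
    (mv_int hρ ε hf.continuous x) (mv_int hρ ε hf' x).aestronglyMeasurable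
    (Eventually.of_forall fun y z hz => ?_) hi (Eventually.of_forall fun y z hz => ?_)
  · rw [norm_smul, Real.norm_eq_abs]
    rcases lt_or_ge 1 ‖y‖ with hy | hy
    · rw [hρ.supp y hy]
      simp
    · refine mul_le_mul_of_nonneg_left (hC _ ?_) (abs_nonneg _)
      rw [mem_closedBall_zero_iff]
      have h1 : ‖z‖ ≤ ‖x‖ + 1 := by
        have h2 : ‖z - x‖ < 1 := by simpa [dist_eq_norm] using hz
        have h3 := norm_le_norm_add_norm_sub' z x
        linarith
      have h4 : ‖ε • y‖ ≤ |ε| := by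
        rw [norm_smul, Real.norm_eq_abs]
        exact mul_le_of_le_one_right (abs_nonneg _) hy
      calc ‖z - ε • y‖ ≤ ‖z‖ + ‖ε • y‖ := norm_sub_le _ _
        _ ≤ ‖x‖ + 1 + |ε| := by linarith
  · have h1 : HasFDerivAt f (fderiv ℝ f (z - ε • y)) (z - ε • y) :=
      (hf.differentiable one_ne_zero _).hasFDerivAt
    have h2 : HasFDerivAt (fun z : E n => z - ε • y) (ContinuousLinearMap.id ℝ (E n)) z :=
      (hasFDerivAt_id z).sub_const _
    have h3 := h1.comp z h2
    rw [ContinuousLinearMap.comp_id] at h3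
    exact h3.const_smul (ρ y)

lemma mv_cont {V : Type} [NormedAddCommGroup V] [NormedSpace ℝ V] [CompleteSpace V]
    {ρ : E n → ℝ} (hρ : Mol ρ) (ε : ℝ) {f : E n → V} (hf : ContDiff ℝ ∞ f) (k : ℕ) :
    ContDiff ℝ k (mv ρ ε f) := by
  induction k generalizing V with
  | zero =>
    have h1 : ContDiff ℝ 1 f := hf.of_le (by exact_mod_cast le_top)
    have h2 : Continuous (mv ρ ε f) :=
      continuous_iff_continuousAt.2 fun x => (mv_hasFD hρ ε h1 x).continuousAt
    exact_mod_cast contDiff_zero.2 h2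
  | succ k ih =>
    have h1 : ContDiff ℝ 1 f := hf.of_le (by exact_mod_cast le_top)
    have h2 : fderiv ℝ (mv ρ ε f) = mv ρ ε (fderiv ℝ f) :=
      funext fun x => (mv_hasFD hρ ε h1 x).fderiv
    have h3 : ContDiff ℝ ∞ (fderiv ℝ f) := (contDiff_infty_iff_fderiv.1 hf).2
    rw [Nat.cast_add, Nat.cast_one, contDiff_succ_iff_fderiv]
    refine ⟨fun x => (mv_hasFD hρ ε h1 x).differentiableAt, fun h => ?_, ?_⟩
    · exact absurd h (by simp)
    · rw [h2]
      exact ih h3

lemma mv_smooth {V : Type} [NormedAddCommGroup V] [NormedSpace ℝ V] [CompleteSpace V]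
    {ρ : E n → ℝ} (hρ : Mol ρ) (ε : ℝ) {f : E n → V} (hf : ContDiff ℝ ∞ f) :
    ContDiff ℝ ∞ (mv ρ ε f) :=
  contDiff_infty.2 fun k => mv_cont hρ ε hf k

lemma neg1 {j : ℕ} (a : Fk n j) : (-1 : ℝ) • a = -a := by
  ext v
  simp

lemma mv_ext {j : ℕ} {ρ : E n → ℝ} (hρ : Mol ρ) (ε : ℝ) {φ : E n → Fk n j}
    (hφ : ContDiff ℝ ∞ φ) (x : E n) :
    extDeriv (mv ρ ε φ) x = mv ρ ε (fun y => extDeriv φ y) x := by
  have h1 : ContDiff ℝ 1 φ := hφ.of_le (by exact_mod_cast le_top)
  have h3 : Continuous (fderiv ℝ φ) := h1.continuous_fderiv one_ne_zero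
  let A : (E n →L[ℝ] Fk n j) →L[ℝ] Fk n (j + 1) :=
    ContinuousAlternatingMap.alternatizeUncurryFinCLM ℝ (E n) ℝ
  have h4 := ContinuousLinearMap.integral_comp_comm (𝕜 := ℝ) (E := E n →L[ℝ] Fk n j)
    (Fₗ := Fk n (j + 1)) A (mv_int (V := E n →L[ℝ] Fk n j) hρ ε h3 x)
  rw [extDeriv, (mv_hasFD hρ ε h1 x).fderiv]
  rw [← ContinuousAlternatingMap.alternatizeUncurryFinCLM_apply]
  rw [mv, ← h4, mv]
  refine integral_congr_ae (Eventually.of_forall fun y => ?_)
  simp only
  rw [map_smul]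
  rfl

/-- MOA -/
theorem hMoa : SPlb → SMoa := by
  intro hPlb n j ρ hρ μ hμ r κ hκ
  set r' : ℝ := max r 1 with hr'
  have hr1 : 1 ≤ r' := le_max_right _ _
  have hr0 : 0 < r' := by linarith
  have huc : UniformContinuousOn μ (Metric.closedBall (0 : E n) (r' + 1)) :=
    (isCompact_closedBall _ _).uniformContinuousOn_of_continuous hμ.continuous.continuousOn
  obtain ⟨δ, hδ, hδ'⟩ := Metric.uniformContinuousOn_iff.1 huc (κ / r') (by positivity)
  refine ⟨min 1 (δ / 2), by positivity, fun ε hε hε0 φ hφ hφμ => ?_⟩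
  have hε1 : ε ≤ 1 := hε0.trans (min_le_left _ _)
  have hε2 : ε < δ := by
    have := hε0.trans (min_le_right _ _)
    linarith
  have hφs := mv_smooth hρ ε hφ
  have hμs := mv_smooth hρ ε hμ
  have hext : ∀ x, extDeriv (mv ρ ε φ) x = mv ρ ε μ x := by
    intro x
    rw [mv_ext hρ ε hφ x]
    have : (fun y => extDeriv φ y) = μ := funext hφμ
    rw [this]
  -- the difference
  have hb : ∀ x, ‖x‖ ≤ r' → ‖μ x - mv ρ ε μ x‖ ≤ κ / r' := by
    intro x hx
    have e1 : μ x = ∫ y, ρ y • μ x := by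
      rw [integral_smul_const, hρ.int, one_smul]
    have hi1 : Integrable (fun y => ρ y • μ x) :=
      (hρ.smooth.continuous.integrable_of_hasCompactSupport (molC hρ)).smul_const _
    have e2 : μ x - mv ρ ε μ x = ∫ y, (ρ y • μ x - ρ y • μ (x - ε • y)) := by
      rw [integral_sub hi1 (mv_int hρ ε hμ.continuous x), ← e1]
      rfl
    rw [e2]
    have hi2 : Integrable (fun y => ρ y * (κ / r')) :=
      (hρ.smooth.continuous.integrable_of_hasCompactSupport (molC hρ)).mul_const _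
    refine (norm_integral_le_of_norm_le hi2 (Eventually.of_forall fun y => ?_)).trans ?_
    · have e3 : ρ y • μ x - ρ y • μ (x - ε • y) = ρ y • (μ x - μ (x - ε • y)) :=
        (smul_sub _ _ _).symm
      rw [e3, norm_smul, Real.norm_of_nonneg (hρ.nonneg y)]
      rcases lt_or_ge 1 ‖y‖ with hy | hy
      · rw [hρ.supp y hy]
        simp
      · refine mul_le_mul_of_nonneg_left ?_ (hρ.nonneg y)
        have h4 : ‖ε • y‖ ≤ ε := by
          rw [norm_smul, Real.norm_of_nonneg hε.le]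
          exact mul_le_of_le_one_right hε.le hy
        have h5 := hδ' x (by
            rw [mem_closedBall_zero_iff]
            linarith) (x - ε • y) (by
            rw [mem_closedBall_zero_iff]
            calc ‖x - ε • y‖ ≤ ‖x‖ + ‖ε • y‖ := norm_sub_le _ _
              _ ≤ r' + 1 := by linarith) (by
            rw [dist_eq_norm, sub_sub_cancel]
            linarith)
        rw [dist_eq_norm] at h5
        exact h5.le
    · rw [integral_mul_const, hρ.int, one_mul]
  have hd : ∀ {m : ℕ} {φ : E n → Fk n m}, ContDiff ℝ ∞ φ → ∀ x, DifferentiableAt ℝ φ x :=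
    fun hφ x => (hφ.differentiable (by simp)).differentiableAt
  have hneg : ∀ {m : ℕ} (a b : E n → Fk n m), ContDiff ℝ ∞ a → ContDiff ℝ ∞ b → ∀ x,
      extDeriv (a + (-1 : ℝ) • b) x = extDeriv a x - extDeriv b x := by
    intro m a b ha hb x
    rw [extDeriv_add (hd ha x) ((hd hb x).const_smul _), extDeriv_smul, neg_one_smul,
      sub_eq_add_neg]
  have hclosed : ∀ x, extDeriv (μ + (-1 : ℝ) • mv ρ ε μ) x = 0 := by
    have h0 : μ + (-1 : ℝ) • mv ρ ε μ = extDeriv (φ + (-1 : ℝ) • mv ρ ε φ) := by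
      funext x
      have e4 : (-1 : ℝ) • mv ρ ε μ x = -mv ρ ε μ x := neg1 _
      rw [hneg φ _ hφ hφs x, hφμ x, hext x, Pi.add_apply, Pi.smul_apply, e4, sub_eq_add_neg]
    intro x
    have hs : ContDiff ℝ ∞ (φ + (-1 : ℝ) • mv ρ ε φ) := hφ.add (hφs.const_smul (-1 : ℝ))
    have h7 : extDeriv (extDeriv (φ + (-1 : ℝ) • mv ρ ε φ)) = 0 := extDeriv_extDeriv hs (by
      simp only [minSmoothness_of_isRCLikeNormedField]
      exact WithTop.coe_le_coe.2 (le_top : (2 : ℕ∞) ≤ ⊤))
    rw [h0, h7]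
    rfl
  obtain ⟨σ, hσ, hσμ, hσb⟩ := hPlb n j (μ + (-1 : ℝ) • mv ρ ε μ) (hμ.add (hμs.const_smul (-1 : ℝ)))
    hclosed
  refine ⟨mv ρ ε φ + σ, hφs.add hσ, fun x => ?_, fun x hx => ?_⟩
  · have e4 : (-1 : ℝ) • mv ρ ε μ x = -mv ρ ε μ x := neg1 _
    rw [extDeriv_add (hd hφs x) (hd hσ x), hext x, hσμ x, Pi.add_apply, Pi.smul_apply, e4]
    abel
  · have h1 := hσb r' (κ / r') (fun y hy => by
      have := hb y hy
      have e4 : (-1 : ℝ) • mv ρ ε μ y = -mv ρ ε μ y := neg1 _
      rw [Pi.add_apply, Pi.smul_apply, e4, ← sub_eq_add_neg]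
      exact this) x (hx.trans (le_max_left _ _))
    rw [mul_div_cancel₀ _ hr0.ne'] at h1
    have e : (mv ρ ε φ + σ) x - ∫ y, ρ y • φ (x - ε • y) = σ x := by
      rw [Pi.add_apply]
      exact add_sub_cancel_left _ _
    rw [e]
    exact h1

end Pool.Agent.Helper15.QD
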