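import Pool.Agent.Helper58.QD.StS

/-!
# Project QD, module SPP: sup bound of harmonic forms
-/

set_option autoImplicit false

open Set Filter Topology MeasureTheory
open Helper62.LH Helper62.DSH Helper58.QD
open scoped ContDiff ENNReal

noncomputable section

namespace Pool.Agent.Helper15.QD

/-- SPP -/
theorem hSpp : StMet → TNrm → TDdz → SBal → SBgv → SGrw → SMvp → SSpp := by
  intro hMet hNrm hDdz hBal hBgv hGrw hMvp n m g Γ F G hg hΓ hF hC hS p b β κ₀ r0 hb hβ A hA hW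
  obtain ⟨-, -, hd0, hdd, hds, hdt⟩ := hMet n g hg
  obtain ⟨-, hv2, hv3⟩ := hBgv n g Γ hg hΓ hC hS
  obtain ⟨-, -, R0, hR0, hgr⟩ := hGrw n g Γ hg p b β κ₀ r0 hb hβ
  obtain ⟨C₁, hC₁, hM⟩ := hMvp n (m + 1) g Γ F G hg hΓ hF hC hS A hA
  have hκ := hb.kpos
  set D : ℝ := 14 / κ₀ with hD
  have hD0 : 0 < D := by positivity
  refine ⟨C₁ * (64 * (1 + D)) ^ n, 4 * R0, by positivity, by linarith, ?_⟩
  intro T hT P hP x hx1 hx2
  have hT0 : 0 < T := by linarith
  obtain ⟨hg1, hg2⟩ := hgr x (by linarith)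
  have hdx : T / 8 ≤ dg g p x := by linarith
  have hdx2 : dg g p x ≤ D * T := by
    have h1 : κ₀ / 2 * dg g p x ≤ 7 * T := hg1.trans hx2
    have h2 : dg g p x * κ₀ ≤ 14 * T := by linarith
    rw [hD, div_mul_eq_mul_div, le_div_iff₀ hκ]
    exact h2
  set ρ : ℝ := T / 64 with hρ
  have hρ0 : 0 < ρ := by positivity
  obtain ⟨-, -, hvx, -, hvm⟩ := hBal n g Γ hg hΓ hC x
  obtain ⟨-, -, hvp, -, -⟩ := hBal n g Γ hg hΓ hC p
  -- volume comparison
  have hvol : vb g p T ≤ (64 * (1 + D)) ^ n * vb g x ρ := by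
    have e1 := hv3 p x T
    have e2 := hvm (T + dg g p x) ((1 + D) * T) (by linarith)
    have e3 := hv2 x ((1 + D) * T) (1 / (64 * (1 + D))) (by positivity) (by
      rw [div_le_one (by positivity)]
      linarith)
    have e4 : 1 / (64 * (1 + D)) * ((1 + D) * T) = ρ := by
      rw [hρ]
      field_simp
    rw [e4, one_div_one_div] at e3
    exact e1.trans (e2.trans e3)
  -- the Weitzenboeck bound
  have hWL : WLo g Γ F (m + 1) (Ba g x ρ) (A / ρ ^ 2) := by
    intro y hy t ht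
    have hy' : dg g x y < ρ := hy
    have h1 := hdt p y x
    rw [hds y x] at h1
    have h2 : ρ ≤ dg g p y := by
      rw [hρ] at hy' ⊢
      linarith
    have h3 : ρ ^ 2 ≤ 1 + dg g p y ^ 2 := by nlinarith
    have h4 : A / (1 + dg g p y ^ 2) ≤ A / ρ ^ 2 :=
      div_le_div_of_nonneg_left hA (by positivity) h3
    have h5 : 0 ≤ q2 t := ((hNrm n (m + 1 + 1)).1 t).1
    have h6 := hW y t ht
    have h7 := mul_le_mul_of_nonneg_right h4 h5
    linarith
  have hcl : ∀ y, dF F G P y = 0 := by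
    obtain ⟨u, hu, hua, hdu⟩ := hP.prim
    have e : P = dF F G u := funext fun y => (hdu y).symm
    intro y
    rw [e]
    exact hDdz n (m + 1) g Γ F G hg hΓ hF u hu hua y
  have hmain := hM P hP.smooth hP.alt hcl hP.cocl x ρ hρ0 hWL
  have hnn : ∀ y, 0 ≤ q2 (P y) * vol g y := fun y =>
    mul_nonneg ((hNrm n (m + 2)).1 (P y)).1 (Real.sqrt_nonneg _)
  have hint : ∫ y in Ba g x ρ, q2 (P y) * vol g y ≤ ∫ y, q2 (P y) * vol g y :=
    setIntegral_le_integral hP.int (Eventually.of_forall hnn)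
  have hI0 : 0 ≤ ∫ y, q2 (P y) * vol g y := integral_nonneg hnn
  have hV := hvp T hT0
  have hVx := hvx ρ hρ0
  refine hmain.trans ?_
  have h8 : C₁ / vb g x ρ ≤ C₁ * (64 * (1 + D)) ^ n / vb g p T := by
    rw [div_le_div_iff₀ hVx hV]
    calc C₁ * vb g p T ≤ C₁ * ((64 * (1 + D)) ^ n * vb g x ρ) :=
          mul_le_mul_of_nonneg_left hvol hC₁.le
      _ = _ := by ring
  exact mul_le_mul h8 hint (integral_nonneg hnn) (by positivity)

end Pool.Agent.Helper15.QD
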